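import Pool.Agent.W297.LP.Stm

/-! Project LP, part MARG: marginals of uniform random cliques inside the parts. -/

set_option autoImplicit false

open Finset

namespace Pool.Agent.W962.LP

open Pool.Agent.W297.LP

theorem mem_cl' {V : Type} [Fintype V] {W : V → V → ℝ} {D : Finset V} {s : ℕ} {x : Fin s → V} :
    x ∈ cl W D s ↔ (∀ i, x i ∈ D) ∧ ∀ i j, i ≠ j → W (x i) (x j) = 1 := by
  simp only [cl, mem_filter, mem_univ, true_and]

section tuples

variable {V : Type}

theorem marg1 (D : Finset V) {k : ℕ} (j : Fin k) (f : V → ℝ) :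
    ∑ x ∈ Fintype.piFinset (fun _ : Fin k => D), f (x j)
      = (D.card : ℝ) ^ (k - 1) * ∑ y ∈ D, f y := by
  classical
  have h := Finset.prod_univ_sum (fun _ : Fin k => D)
    (fun (i : Fin k) (y : V) => if i = j then f y else (1 : ℝ))
  have h1 : ∀ x : Fin k → V, ∏ i, (if i = j then f (x i) else (1 : ℝ)) = f (x j) := by
    intro x
    rw [Finset.prod_ite_eq' univ j (fun i => f (x i))]
    simp
  simp only [h1] at h
  rw [← h, ← Finset.mul_prod_erase univ _ (mem_univ j)]
  have h3 : (∑ y ∈ D, (if j = j then f y else (1 : ℝ))) = ∑ y ∈ D, f y := by simp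
  rw [h3]
  have h2 : ∏ i ∈ univ.erase j, ∑ y ∈ D, (if i = j then f y else (1 : ℝ)) = (D.card : ℝ) ^ (k - 1) := by
    rw [Finset.prod_congr rfl (g := fun _ => (D.card : ℝ))]
    · rw [prod_const, card_erase_of_mem (mem_univ j), card_univ, Fintype.card_fin]
    · intro i hi
      have : i ≠ j := (mem_erase.1 hi).1
      simp [this]
  rw [h2]
  ring

theorem marg2 [DecidableEq V] (D : Finset V) {k : ℕ} {a b : Fin k} (hab : a ≠ b) (h : V → V → ℝ) :
    ∑ x ∈ Fintype.piFinset (fun _ : Fin k => D), h (x a) (x b)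
      = (D.card : ℝ) ^ (k - 2) * ∑ u ∈ D, ∑ y ∈ D, h u y := by
  classical
  have h0 : ∀ x ∈ Fintype.piFinset (fun _ : Fin k => D), h (x a) (x b)
      = ∑ u ∈ D, (if x a = u then (1 : ℝ) else 0) * h u (x b) := by
    intro x hx
    rw [Fintype.mem_piFinset] at hx
    rw [Finset.sum_eq_single_of_mem (x a) (hx a)]
    · simp
    · intro u _ hu
      rw [if_neg (fun e => hu e.symm), zero_mul]
  rw [Finset.sum_congr rfl h0, Finset.sum_comm, Finset.mul_sum]
  refine Finset.sum_congr rfl fun u hu => ?_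
  have h1 := Finset.prod_univ_sum (fun _ : Fin k => D)
    (fun (i : Fin k) (y : V) => if i = a then (if y = u then (1 : ℝ) else 0)
      else if i = b then h u y else (1 : ℝ))
  have hbm : b ∈ univ.erase a := mem_erase.2 ⟨hab.symm, mem_univ b⟩
  have h2 : ∀ x : Fin k → V, ∏ i, (if i = a then (if x i = u then (1 : ℝ) else 0)
      else if i = b then h u (x i) else (1 : ℝ)) = (if x a = u then (1 : ℝ) else 0) * h u (x b) := by
    intro x
    rw [← Finset.mul_prod_erase univ _ (mem_univ a), ← Finset.mul_prod_erase (univ.erase a) _ hbm]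
    rw [if_pos rfl, if_neg hab.symm, if_pos rfl, Finset.prod_eq_one, mul_one]
    intro i hi
    have hi1 := mem_erase.1 hi
    have hi2 := mem_erase.1 hi1.2
    rw [if_neg hi2.1, if_neg hi1.1]
  simp only [h2] at h1
  rw [← h1, ← Finset.mul_prod_erase univ _ (mem_univ a), ← Finset.mul_prod_erase (univ.erase a) _ hbm]
  have e1 : (∑ y ∈ D, (if a = a then (if y = u then (1 : ℝ) else 0)
      else if a = b then h u y else (1 : ℝ))) = 1 := by
    simp [hu]
  have e2 : (∑ y ∈ D, (if b = a then (if y = u then (1 : ℝ) else 0)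
      else if b = b then h u y else (1 : ℝ))) = ∑ y ∈ D, h u y := by
    simp [hab.symm]
  have e3 : ∏ i ∈ (univ.erase a).erase b, (∑ y ∈ D, (if i = a then (if y = u then (1 : ℝ) else 0)
      else if i = b then h u y else (1 : ℝ))) = (D.card : ℝ) ^ (k - 2) := by
    rw [Finset.prod_congr rfl (g := fun _ => (D.card : ℝ))]
    · rw [prod_const, card_erase_of_mem hbm, card_erase_of_mem (mem_univ a), card_univ,
        Fintype.card_fin, Nat.sub_sub]
    · intro i hi
      have hi1 := mem_erase.1 hi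
      have hi2 := mem_erase.1 hi1.2
      simp [hi1.1, hi2.1]
  rw [e1, e2, e3]
  ring

end tuples

/-- Few tuples of a set are not cliques. -/
theorem noncl {V : Type} [Fintype V] [DecidableEq V] {W : V → V → ℝ} (hW : Ker W) (D : Finset V)
    (k : ℕ) : (D.card : ℝ) ^ k - ((cl W D k).card : ℝ)
      ≤ (k : ℝ) ^ 2 * ((D.card : ℝ) ^ (k - 2) * ∑ u ∈ D, ∑ y ∈ D, co W u y) := by
  classical
  have hco : ∀ x y, 0 ≤ co W x y := by
    intro x y
    unfold co
    rcases hW.zo x y with h | h <;> rw [h] <;> norm_num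
  have hsub : cl W D k ⊆ Fintype.piFinset (fun _ : Fin k => D) := by
    intro x hx
    exact Fintype.mem_piFinset.2 (mem_cl'.1 hx).1
  have h1 : (D.card : ℝ) ^ k - ((cl W D k).card : ℝ)
      = ((Fintype.piFinset (fun _ : Fin k => D) \ cl W D k).card : ℝ) := by
    rw [Finset.card_sdiff_of_subset hsub, Nat.cast_sub (Finset.card_le_card hsub),
      Fintype.card_piFinset_const]
    push_cast
    rfl
  rw [h1]
  obtain ⟨G, hG⟩ : ∃ G : (Fin k → V) → ℝ, G = fun x =>
      ∑ a : Fin k, ∑ b : Fin k, (if a = b then 0 else co W (x a) (x b)) := ⟨_, rfl⟩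
  have hterm : ∀ (x : Fin k → V) (a b : Fin k),
      0 ≤ (if a = b then 0 else co W (x a) (x b)) := by
    intro x a b
    split_ifs
    · exact le_rfl
    · exact hco _ _
  have hG0 : ∀ x, 0 ≤ G x := by
    intro x
    rw [hG]
    exact Finset.sum_nonneg fun a _ => Finset.sum_nonneg fun b _ => hterm x a b
  have hG1 : ∀ x ∈ Fintype.piFinset (fun _ : Fin k => D) \ cl W D k, 1 ≤ G x := by
    intro x hx
    rw [mem_sdiff] at hx
    have hxn : ¬ ∀ i j, i ≠ j → W (x i) (x j) = 1 := by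
      intro hcon
      exact hx.2 (mem_cl'.2 ⟨Fintype.mem_piFinset.1 hx.1, hcon⟩)
    push Not at hxn
    obtain ⟨a, b, hab, hne⟩ := hxn
    have hz : W (x a) (x b) = 0 := (hW.zo _ _).resolve_right hne
    have hone : (if a = b then 0 else co W (x a) (x b)) = 1 := by
      rw [if_neg hab, co, hz]
      norm_num
    have h5 : (if a = b then 0 else co W (x a) (x b))
        ≤ ∑ b : Fin k, (if a = b then 0 else co W (x a) (x b)) :=
      Finset.single_le_sum (f := fun b => if a = b then 0 else co W (x a) (x b))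
        (fun i _ => hterm x a i) (mem_univ b)
    have h6 : ∑ b : Fin k, (if a = b then 0 else co W (x a) (x b)) ≤ G x := by
      rw [hG]
      exact Finset.single_le_sum
        (f := fun a => ∑ b : Fin k, (if a = b then 0 else co W (x a) (x b)))
        (fun i _ => Finset.sum_nonneg fun j _ => hterm x i j) (mem_univ a)
    rw [hone] at h5
    exact h5.trans h6
  have h2 : ((Fintype.piFinset (fun _ : Fin k => D) \ cl W D k).card : ℝ)
      ≤ ∑ x ∈ Fintype.piFinset (fun _ : Fin k => D), G x := by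
    have h7 := Finset.card_nsmul_le_sum (Fintype.piFinset (fun _ : Fin k => D) \ cl W D k) G 1 hG1
    rw [nsmul_eq_mul, mul_one] at h7
    exact h7.trans (Finset.sum_le_sum_of_subset_of_nonneg sdiff_subset fun x _ _ => hG0 x)
  refine h2.trans ?_
  rw [hG]
  simp only
  rw [Finset.sum_comm]
  have hX : 0 ≤ (D.card : ℝ) ^ (k - 2) * ∑ u ∈ D, ∑ y ∈ D, co W u y :=
    mul_nonneg (by positivity) (Finset.sum_nonneg fun _ _ => Finset.sum_nonneg fun _ _ => hco _ _)
  have h3 : ∀ a : Fin k, ∑ x ∈ Fintype.piFinset (fun _ : Fin k => D),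
      ∑ b : Fin k, (if a = b then 0 else co W (x a) (x b))
      ≤ ∑ _b : Fin k, (D.card : ℝ) ^ (k - 2) * ∑ u ∈ D, ∑ y ∈ D, co W u y := by
    intro a
    rw [Finset.sum_comm]
    refine Finset.sum_le_sum fun b _ => ?_
    by_cases hab : a = b
    · simp only [hab, if_true, Finset.sum_const_zero]
      exact hX
    · simp only [if_neg hab]
      rw [marg2 D hab (co W)]
  refine (Finset.sum_le_sum fun a _ => h3 a).trans (le_of_eq ?_)
  simp only [Finset.sum_const, card_univ, Fintype.card_fin, nsmul_eq_mul]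
  ring

/-- The average over cliques is close to the average over the set. -/
theorem avg_cl {V : Type} [Fintype V] [DecidableEq V] {W : V → V → ℝ} (D : Finset V)
    {k : ℕ} (j : Fin k) (f : V → ℝ) {M : ℝ} (hf : ∀ x ∈ D, |f x| ≤ M) (hD : 0 < D.card)
    (hK : 0 < (cl W D k).card) :
    |(∑ x ∈ cl W D k, f (x j)) / ((cl W D k).card : ℝ) - (∑ y ∈ D, f y) / (D.card : ℝ)|
      ≤ 2 * (((D.card : ℝ) ^ k - ((cl W D k).card : ℝ)) / (D.card : ℝ) ^ k) * M := by
  classical
  have hsub : cl W D k ⊆ Fintype.piFinset (fun _ : Fin k => D) := by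
    intro x hx
    exact Fintype.mem_piFinset.2 (mem_cl'.1 hx).1
  have h1 : (D.card : ℝ) ^ k - ((cl W D k).card : ℝ)
      = ((Fintype.piFinset (fun _ : Fin k => D) \ cl W D k).card : ℝ) := by
    rw [Finset.card_sdiff_of_subset hsub, Nat.cast_sub (Finset.card_le_card hsub),
      Fintype.card_piFinset_const]
    push_cast
    rfl
  set N : ℝ := (D.card : ℝ) ^ k with hN
  set K : ℝ := ((cl W D k).card : ℝ) with hKd
  have hD0 : (0 : ℝ) < D.card := by exact_mod_cast hD
  have hN0 : 0 < N := by positivity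
  have hK0 : 0 < K := by rw [hKd]; exact_mod_cast hK
  have hkpos : 0 < k := Fin.pos j
  set S1 : ℝ := ∑ x ∈ cl W D k, f (x j) with hS1
  set S2 : ℝ := ∑ x ∈ Fintype.piFinset (fun _ : Fin k => D) \ cl W D k, f (x j) with hS2
  have h2 : S1 + S2 = (D.card : ℝ) ^ (k - 1) * ∑ y ∈ D, f y := by
    rw [← marg1 D j f, hS1, hS2, add_comm, Finset.sum_sdiff hsub]
  have h3 : (∑ y ∈ D, f y) / (D.card : ℝ) = (S1 + S2) / N := by
    rw [h2, hN]
    obtain ⟨k', rfl⟩ : ∃ k', k = k' + 1 := ⟨k - 1, by omega⟩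
    rw [Nat.add_sub_cancel, pow_succ]
    field_simp
  have hb1 : |S1| ≤ K * M := by
    rw [hS1, hKd]
    refine (Finset.abs_sum_le_sum_abs _ _).trans ?_
    calc ∑ x ∈ cl W D k, |f (x j)| ≤ ∑ _x ∈ cl W D k, M :=
          Finset.sum_le_sum fun x hx => hf _ (Fintype.mem_piFinset.1 (hsub hx) j)
      _ = _ := by rw [Finset.sum_const, nsmul_eq_mul]
  have hb2 : |S2| ≤ (N - K) * M := by
    rw [hS2, h1]
    refine (Finset.abs_sum_le_sum_abs _ _).trans ?_
    calc ∑ x ∈ Fintype.piFinset (fun _ : Fin k => D) \ cl W D k, |f (x j)|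
        ≤ ∑ _x ∈ Fintype.piFinset (fun _ : Fin k => D) \ cl W D k, M :=
          Finset.sum_le_sum fun x hx => hf _ (Fintype.mem_piFinset.1 (mem_sdiff.1 hx).1 j)
      _ = _ := by rw [Finset.sum_const, nsmul_eq_mul]
  have hNK : 0 ≤ N - K := by rw [h1]; positivity
  rw [h3]
  have e1 : S1 / K - (S1 + S2) / N = S1 * ((N - K) / (K * N)) - S2 / N := by
    field_simp
    ring
  rw [e1]
  calc |S1 * ((N - K) / (K * N)) - S2 / N| ≤ |S1 * ((N - K) / (K * N))| + |S2 / N| := abs_sub _ _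
    _ = |S1| * ((N - K) / (K * N)) + |S2| / N := by
        rw [abs_mul, abs_of_nonneg (div_nonneg hNK (mul_pos hK0 hN0).le), abs_div S2,
          abs_of_pos hN0]
    _ ≤ (K * M) * ((N - K) / (K * N)) + ((N - K) * M) / N := by
        gcongr
    _ = _ := by
        field_simp
        ring

theorem marg : SMarg := by
  intro k hk
  set m : ℝ := mu k with hm
  have hk1 : (3 : ℝ) ≤ (k : ℝ) - 1 := by
    have : (4 : ℝ) ≤ (k : ℝ) := by exact_mod_cast hk
    linarith
  have hm0 : 0 < m := by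
    rw [hm, mu]
    positivity
  have hm1 : m ≤ 1 / 3 := by
    rw [hm, mu]
    exact one_div_le_one_div_of_le (by norm_num) hk1
  have hk0 : (0 : ℝ) < k := by linarith
  refine ⟨8 * ((k : ℝ) ^ 2 + 1) / m ^ 2, m ^ 2 / (8 * (k : ℝ) ^ 2) / 2, by positivity, by positivity, ?_⟩
  intro V _ _ W Q Vi A1 A2 e d g hW hV he hd hg hT hQ hbl
  set n : ℝ := (Fintype.card V : ℝ) with hn
  have hn0 : 0 < n := by rw [hn]; exact_mod_cast hV
  set v : Fin (k - 1) → ℝ := fun i => ms (Vi i) with hv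
  have hvm : ∀ i, m / 2 ≤ v i := by
    intro i
    have h1 := (abs_le.1 (hT.size i)).1
    have h2 : m ^ 2 / 16 ≤ m / 2 := by nlinarith
    show m / 2 ≤ ms (Vi i)
    linarith
  have hv0 : ∀ i, 0 < v i := fun i => by
    have := hvm i
    linarith
  have hcard : ∀ i, ((Vi i).card : ℝ) = v i * n := by
    intro i
    show ((Vi i).card : ℝ) = ms (Vi i) * n
    unfold ms
    rw [div_mul_cancel₀ _ hn0.ne']
  have hD : ∀ i, 0 < (Vi i).card := by
    intro i
    have : (0 : ℝ) < ((Vi i).card : ℝ) := by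
      rw [hcard i]
      exact mul_pos (hv0 i) hn0
    exact_mod_cast this
  have hco : ∀ x y, 0 ≤ co W x y := by
    intro x y
    unfold co
    rcases hW.zo x y with h | h <;> rw [h] <;> norm_num
  set β : Fin (k - 1) → ℝ := fun i => ee (co W) (Vi i) (Vi i) with hβ
  have hβ0 : ∀ i, 0 ≤ β i := fun i =>
    div_nonneg (Finset.sum_nonneg fun _ _ => Finset.sum_nonneg fun _ _ => hco _ _) (by positivity)
  have hβbl : ∀ i, β i ≤ bl W Vi := fun i =>
    Finset.single_le_sum (f := β) (fun i _ => hβ0 i) (mem_univ i)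
  have hblnn : bl W Vi = ∑ i, β i := rfl
  have hbl0 : 0 ≤ bl W Vi := Finset.sum_nonneg fun i _ => hβ0 i
  -- proportion of non-cliques
  have hnon : ∀ i, (((Vi i).card : ℝ) ^ k - ((cl W (Vi i) k).card : ℝ)) / ((Vi i).card : ℝ) ^ k
      ≤ (k : ℝ) ^ 2 * (β i / v i ^ 2) := by
    intro i
    have h1 := noncl hW (Vi i) k
    have hc0 : (0 : ℝ) < ((Vi i).card : ℝ) := by exact_mod_cast hD i
    rw [div_le_iff₀ (by positivity)]
    refine h1.trans (le_of_eq ?_)
    have h2 : ∑ u ∈ Vi i, ∑ y ∈ Vi i, co W u y = β i * n ^ 2 := by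
      show _ = ee (co W) (Vi i) (Vi i) * n ^ 2
      unfold ee
      rw [div_mul_cancel₀ _ (by positivity)]
    rw [h2]
    obtain ⟨k', rfl⟩ : ∃ k', k = k' + 2 := ⟨k - 2, by omega⟩
    rw [Nat.add_sub_cancel, pow_add, hcard i]
    have := (hv0 i).ne'
    field_simp
  have hKpos : ∀ i, 0 < (cl W (Vi i) k).card := by
    intro i
    have hc0 : (0 : ℝ) < ((Vi i).card : ℝ) := by exact_mod_cast hD i
    have h1 := hnon i
    have h2 : (k : ℝ) ^ 2 * (β i / v i ^ 2) ≤ 1 / 4 := by
      have h3 : β i ≤ m ^ 2 / (8 * (k : ℝ) ^ 2) / 2 := (hβbl i).trans hbl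
      have h4 : (m / 2) ^ 2 ≤ v i ^ 2 := pow_le_pow_left₀ (by positivity) (hvm i) 2
      have h5 : 0 < v i ^ 2 := by
        have := hv0 i
        positivity
      calc (k : ℝ) ^ 2 * (β i / v i ^ 2) ≤ (k : ℝ) ^ 2 * ((m ^ 2 / (8 * (k : ℝ) ^ 2) / 2) / (m / 2) ^ 2) := by
            gcongr
        _ = 1 / 4 := by
            field_simp
            norm_num
    have h3 : 0 < ((cl W (Vi i) k).card : ℝ) := by
      have h4 := (div_le_iff₀ (by positivity)).1 (h1.trans h2)
      have h5 : (0 : ℝ) < ((Vi i).card : ℝ) ^ k := by positivity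
      linarith
    exact_mod_cast h3
  refine ⟨hKpos, ?_⟩
  intro j f M hf
  -- M ≥ 0
  have hi0 : (0 : ℕ) < k - 1 := by omega
  set i0 : Fin (k - 1) := ⟨0, hi0⟩ with hi0'
  have hM : 0 ≤ M := by
    obtain ⟨x, hx⟩ := Finset.card_pos.1 (hD i0)
    exact (abs_nonneg _).trans (hf i0 x hx)
  set S2 : ℝ := ∑ j, v j ^ 2 with hS2
  have hS2m : m ^ 2 / 4 ≤ S2 := by
    calc m ^ 2 / 4 = (m / 2) ^ 2 := by ring
      _ ≤ v i0 ^ 2 := pow_le_pow_left₀ (by positivity) (hvm i0) 2
      _ ≤ S2 := Finset.single_le_sum (f := fun i => v i ^ 2) (fun i _ => sq_nonneg _) (mem_univ i0)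
  have hS20 : 0 < S2 := lt_of_lt_of_le (by positivity) hS2m
  have hww : ∀ i, ww Vi i = v i ^ 2 / S2 := fun i => rfl
  have hw0 : ∀ i, 0 ≤ ww Vi i := fun i => by rw [hww]; positivity
  -- first step
  set q : Fin (k - 1) → ℝ := fun i => (∑ x ∈ cl W (Vi i) k, f (x j)) / ((cl W (Vi i) k).card : ℝ) with hq
  set u : Fin (k - 1) → ℝ := fun i => (∑ y ∈ Vi i, f y) / ((Vi i).card : ℝ) with hu
  have hstep1 : |∑ i, ww Vi i * q i - ∑ i, ww Vi i * u i| ≤ 2 * (k : ℝ) ^ 2 / S2 * bl W Vi * M := by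
    rw [← Finset.sum_sub_distrib]
    refine (Finset.abs_sum_le_sum_abs _ _).trans ?_
    calc ∑ i, |ww Vi i * q i - ww Vi i * u i|
        ≤ ∑ i, 2 * (k : ℝ) ^ 2 / S2 * β i * M := by
          refine Finset.sum_le_sum fun i _ => ?_
          rw [← mul_sub, abs_mul, abs_of_nonneg (hw0 i)]
          have h1 := avg_cl (W := W) (Vi i) j f (hf i) (hD i) (hKpos i)
          have h2 : |q i - u i| ≤ 2 * ((k : ℝ) ^ 2 * (β i / v i ^ 2)) * M := by
            refine h1.trans ?_
            have := hnon i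
            gcongr
          calc ww Vi i * |q i - u i| ≤ ww Vi i * (2 * ((k : ℝ) ^ 2 * (β i / v i ^ 2)) * M) :=
                mul_le_mul_of_nonneg_left h2 (hw0 i)
            _ = 2 * (k : ℝ) ^ 2 / S2 * β i * M := by
                rw [hww]
                have := (hv0 i).ne'
                field_simp
      _ = 2 * (k : ℝ) ^ 2 / S2 * bl W Vi * M := by
          rw [hblnn, Finset.mul_sum, Finset.sum_mul]
  -- second step
  set A : ℝ := ∑ i, ∑ x ∈ Vi i, v i * f x with hA
  set A' : ℝ := ∑ i, ∑ x ∈ Vi i, dg Q x * f x with hA'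
  set B' : ℝ := ∑ i, ∑ x ∈ Vi i, dg Q x with hB'
  have hB : n * S2 = ∑ i, ∑ _x ∈ Vi i, v i := by
    rw [hS2, Finset.mul_sum]
    refine Finset.sum_congr rfl fun i _ => ?_
    rw [Finset.sum_const, nsmul_eq_mul, hcard i]
    ring
  have hwu : ∑ i, ww Vi i * u i = A / (n * S2) := by
    rw [hA, Finset.sum_div]
    refine Finset.sum_congr rfl fun i _ => ?_
    rw [← Finset.mul_sum, hww]
    show v i ^ 2 / S2 * ((∑ y ∈ Vi i, f y) / ((Vi i).card : ℝ)) = _
    rw [hcard i]
    have := (hv0 i).ne'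
    field_simp
  set E : ℝ := ∑ i, ∑ x ∈ Vi i, |dg Q x - v i| with hE
  have hE1 : E ≤ n * (bl W Vi + ms A1) := by
    have := hQ.tv
    rw [div_le_iff₀ hn0] at this
    rw [mul_comm]
    exact this
  have hdg0 : ∀ x, 0 ≤ dg Q x := by
    intro x
    unfold dg
    refine div_nonneg (Finset.sum_nonneg fun y _ => ?_) hn0.le
    rcases hQ.ker.zo x y with h | h <;> rw [h]
    norm_num
  have hAA : |A - A'| ≤ E * M := by
    rw [hA, hA', ← Finset.sum_sub_distrib, hE, Finset.sum_mul]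
    refine (Finset.abs_sum_le_sum_abs _ _).trans (Finset.sum_le_sum fun i _ => ?_)
    rw [← Finset.sum_sub_distrib, Finset.sum_mul]
    refine (Finset.abs_sum_le_sum_abs _ _).trans (Finset.sum_le_sum fun x hx => ?_)
    rw [← sub_mul, abs_mul, abs_sub_comm]
    exact mul_le_mul_of_nonneg_left (hf i x hx) (abs_nonneg _)
  have hBB : |B' - n * S2| ≤ E := by
    rw [hB, hB', ← Finset.sum_sub_distrib, hE]
    refine (Finset.abs_sum_le_sum_abs _ _).trans (Finset.sum_le_sum fun i _ => ?_)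
    rw [← Finset.sum_sub_distrib]
    exact Finset.abs_sum_le_sum_abs _ _
  have hA'M : |A'| ≤ B' * M := by
    rw [hA', hB', Finset.sum_mul]
    refine (Finset.abs_sum_le_sum_abs _ _).trans (Finset.sum_le_sum fun i _ => ?_)
    rw [Finset.sum_mul]
    refine (Finset.abs_sum_le_sum_abs _ _).trans (Finset.sum_le_sum fun x hx => ?_)
    rw [abs_mul, abs_of_nonneg (hdg0 x)]
    exact mul_le_mul_of_nonneg_left (hf i x hx) (hdg0 x)
  have hB'0 : 0 < B' := by
    have h1 : ∀ i, 0 ≤ ∑ x ∈ Vi i, dg Q x := fun i => Finset.sum_nonneg fun x _ => hdg0 x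
    have h2 : 0 < ∑ x ∈ Vi i0, dg Q x := by
      refine Finset.sum_pos (fun x hx => ?_) (Finset.card_pos.1 (hD i0))
      have h3 := (abs_le.1 (hQ.dv i0 x hx)).1
      linarith
    exact h2.trans_le (Finset.single_le_sum (f := fun i => ∑ x ∈ Vi i, dg Q x) (fun i _ => h1 i)
      (mem_univ i0))
  have hBpos : 0 < n * S2 := mul_pos hn0 hS20
  have hstep2 : |A / (n * S2) - A' / B'| ≤ 2 / S2 * (bl W Vi + ms A1) * M := by
    have e1 : A / (n * S2) - A' / B' = (A - A') / (n * S2) + A' * ((B' - n * S2) / (n * S2 * B')) := by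
      field_simp
      ring
    rw [e1]
    have hE0 : 0 ≤ E := (abs_nonneg _).trans hBB
    calc |(A - A') / (n * S2) + A' * ((B' - n * S2) / (n * S2 * B'))|
        ≤ |(A - A') / (n * S2)| + |A' * ((B' - n * S2) / (n * S2 * B'))| := abs_add_le _ _
      _ = |A - A'| / (n * S2) + |A'| * (|B' - n * S2| / (n * S2 * B')) := by
          rw [abs_div (A - A'), abs_mul A', abs_div (B' - n * S2), abs_of_pos hBpos,
            abs_of_pos (mul_pos hBpos hB'0)]
      _ ≤ (E * M) / (n * S2) + (B' * M) * (E / (n * S2 * B')) := by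
          gcongr
      _ = 2 * E * M / (n * S2) := by
          field_simp
          ring
      _ ≤ 2 * (n * (bl W Vi + ms A1)) * M / (n * S2) := by gcongr
      _ = 2 / S2 * (bl W Vi + ms A1) * M := by
          field_simp
  have hA10 : 0 ≤ ms A1 := by
    unfold ms
    positivity
  have hfin : |∑ i, ww Vi i * q i - A' / B'| ≤ 8 * ((k : ℝ) ^ 2 + 1) / m ^ 2 * (bl W Vi + ms A1) * M := by
    have e1 : ∑ i, ww Vi i * q i - A' / B'
        = (∑ i, ww Vi i * q i - ∑ i, ww Vi i * u i) + (A / (n * S2) - A' / B') := by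
      rw [hwu]
      ring
    rw [e1]
    refine (abs_add_le _ _).trans ?_
    calc |∑ i, ww Vi i * q i - ∑ i, ww Vi i * u i| + |A / (n * S2) - A' / B'|
        ≤ 2 * (k : ℝ) ^ 2 / S2 * bl W Vi * M + 2 / S2 * (bl W Vi + ms A1) * M :=
          add_le_add hstep1 hstep2
      _ ≤ 2 * (k : ℝ) ^ 2 / S2 * (bl W Vi + ms A1) * M + 2 / S2 * (bl W Vi + ms A1) * M := by
          gcongr
          linarith
      _ = (2 * ((k : ℝ) ^ 2 + 1) / S2) * (bl W Vi + ms A1) * M := by ring
      _ ≤ (2 * ((k : ℝ) ^ 2 + 1) / (m ^ 2 / 4)) * (bl W Vi + ms A1) * M := by gcongr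
      _ = 8 * ((k : ℝ) ^ 2 + 1) / m ^ 2 * (bl W Vi + ms A1) * M := by
          congr 2
          field_simp
          ring
  exact hfin

end Pool.Agent.W962.LP
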